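import Mathlib

set_option autoImplicit false

/-! # MP_80a94d_pr: number of sources in a random orientation of a tree, definitions

A tree with vertex set `{0, …, n-1}` is encoded by its parent function `p` (`p v < v` for
`1 ≤ v < n`); the edges are `{v, p v}`, `v ∈ Ico 1 n`. An orientation is the set `U ⊆ Ico 1 n` of
the vertices whose parent edge is directed upwards (from `v` to `p v`). -/

namespace Pool.Agent.Lib_helper19.Src

open Finset

/-- `p` is the parent function of a tree on `{0, …, n-1}` -/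
def TreeFn (n : ℕ) (p : ℕ → ℕ) : Prop := ∀ v ∈ Ico 1 n, p v < v

/-- `u` is a source: no edge is directed into `u` -/
def IsSrc (n : ℕ) (p : ℕ → ℕ) (U : Finset ℕ) (u : ℕ) : Prop :=
  (u = 0 ∨ u ∈ U) ∧ ∀ w ∈ Ico 1 n, p w = u → w ∉ U

instance (n : ℕ) (p : ℕ → ℕ) (U : Finset ℕ) (u : ℕ) : Decidable (IsSrc n p U u) := by
  unfold IsSrc; infer_instance

/-- number of sources of the orientation `U` -/
def Zs (n : ℕ) (p : ℕ → ℕ) (U : Finset ℕ) : ℕ := ((range n).filter (fun u => IsSrc n p U u)).card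

/-- number of orientations with exactly `j` sources -/
def cnt (n : ℕ) (p : ℕ → ℕ) (j : ℕ) : ℕ :=
  ((Ico 1 n).powerset.filter (fun U => Zs n p U = j)).card

/-- generating function, real variable -/
noncomputable def PR (n : ℕ) (p : ℕ → ℕ) (x : ℝ) : ℝ := ∑ U ∈ (Ico 1 n).powerset, x ^ Zs n p U

/-- generating function, complex variable -/
noncomputable def PC (n : ℕ) (p : ℕ → ℕ) (x : ℂ) : ℂ := ∑ U ∈ (Ico 1 n).powerset, x ^ Zs n p U

/-- the edge `{v, p v}` is a free switch for the central set `C`: all child edges of `v` are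
directed away from `v`, and `p v` has an in-edge which is not a central edge -/
def Free (n : ℕ) (p : ℕ → ℕ) (C U : Finset ℕ) (v : ℕ) : Prop :=
  (∀ w ∈ Ico 1 n, p w = v → w ∉ U) ∧
    ((p v ≠ 0 ∧ p v ∉ U) ∨ ∃ w ∈ Ico 1 n, p w = p v ∧ w ∉ C ∧ w ∈ U)

instance (n : ℕ) (p : ℕ → ℕ) (C U : Finset ℕ) (v : ℕ) : Decidable (Free n p C U v) := by
  unfold Free; infer_instance

/-- the set of free switches -/
def Fr (n : ℕ) (p : ℕ → ℕ) (C U : Finset ℕ) : Finset ℕ := C.filter (fun v => Free n p C U v)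

/-- a system of switches: central edges `C`, required edges `R v` with required states `b` -/
structure Switch (n : ℕ) (p : ℕ → ℕ) (C : Finset ℕ) (R : ℕ → Finset ℕ) (b : ℕ → Bool) : Prop where
  sub : C ⊆ Ico 1 n
  par : ∀ v ∈ C, p v ∉ C
  Rsub : ∀ v ∈ C, R v ⊆ Ico 1 n \ C
  Rcard : ∀ v ∈ C, (R v).card ≤ 2
  disj : ∀ v ∈ C, ∀ v' ∈ C, v ≠ v' → Disjoint (R v) (R v')
  free : ∀ v ∈ C, ∀ U : Finset ℕ, (∀ e ∈ R v, (e ∈ U ↔ b e = true)) → Free n p C U v

/-- root of the component of `v` after deleting the vertices of `K` -/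
def rt (p : ℕ → ℕ) (K : Finset ℕ) : ℕ → ℕ → ℕ
  | 0, v => v
  | f + 1, v => if v = 0 ∨ p v ∈ K then v else rt p K f (p v)

/-- number of sources outside `K` -/
def Zk (n : ℕ) (p : ℕ → ℕ) (K U : Finset ℕ) : ℕ :=
  ((range n \ K).filter (fun u => IsSrc n p U u)).card

end Pool.Agent.Lib_helper19.Src
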