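import Pool.Agent.Lib_helper19.Src.Defs

set_option autoImplicit false

namespace Pool.Agent.Lib_helper19.Src

open Finset

/-- an orientation of `G`: for every edge one of its two end points, the head -/
abbrev Orient {V : Type} (G : SimpleGraph V) := (e : G.edgeSet) → {v : V // v ∈ (e : Sym2 V)}

/-- number of vertices of in-degree 0 (not the head of any edge) -/
noncomputable def numSources {V : Type} (G : SimpleGraph V) (o : Orient G) : ℕ :=
  {v : V | ∀ e : G.edgeSet, (o e : V) ≠ v}.ncard

/-- number of orientations of `G` with exactly `j` vertices of in-degree 0 -/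
noncomputable def numOrient {V : Type} (G : SimpleGraph V) (j : ℕ) : ℕ :=
  {o : Orient G | numSources G o = j}.ncard

/-- probability that the random orientation (every edge gets each of its two directions with
probability `1/2`, independently, that is, every orientation has probability `(1/2)^m`, `m` the
number of edges) has exactly `j` vertices of in-degree 0 -/
noncomputable def prob {V : Type} (G : SimpleGraph V) (j : ℕ) : ℝ :=
  (numOrient G j : ℝ) * (1 / 2) ^ G.edgeSet.ncard

/-- unimodality of a finite sequence `a 0, ..., a n` -/
def Unimodal (n : ℕ) (a : ℕ → ℝ) : Prop :=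
  ∃ m ≤ n, (∀ i < m, a i ≤ a (i + 1)) ∧ ∀ i, m ≤ i → i < n → a (i + 1) ≤ a i

end Pool.Agent.Lib_helper19.Src
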